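import Mathlib

/-!
# The infinite graphs are not complete under the asymptotic spectrum distance

`Gs i` is the complement of the tensor product of `K_3` with the disjoint union, over all
`k ≥ i²`, of the shift graph on the increasing `k`-tuples from `{0, …, Nf k - 1}`, where `Nf k` is so
large that this shift graph has chromatic number greater than `k`.  A random marking of the points
shows that all but a proportion `2 / i` of the vertices of finitely many of these components can be
covered by bipartite pieces, so that the sequence is Cauchy.  The fractional clique covering number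
with finitely many cliques (`Fb`) is at least `3` on all `Gs i`, while the supremum of the fractional
clique covering numbers of finite graphs below `Gs i` (`Fa`) tends to `2`.  A graph with `Fa ≤ 2` is
covered by two cliques and therefore has `Fb ≤ 2`.
-/

set_option autoImplicit false

open Finset

namespace Pool.Agent.Results.MP_d03f2b_co.NotComplete

variable {V W U : Type}

/-- `G ≤ H`: there is a cohomomorphism, a map sending every pair of distinct non-adjacent vertices
to a pair of distinct non-adjacent vertices. -/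
def Cohom (G : SimpleGraph V) (H : SimpleGraph W) : Prop :=
  ∃ f : V → W, ∀ u v, u ≠ v → ¬ G.Adj u v → f u ≠ f v ∧ ¬ H.Adj (f u) (f v)

/-- Strong product. -/
def strong (G : SimpleGraph V) (H : SimpleGraph W) : SimpleGraph (V × W) where
  Adj p q := p ≠ q ∧ (p.1 = q.1 ∨ G.Adj p.1 q.1) ∧ (p.2 = q.2 ∨ H.Adj p.2 q.2)
  symm := ⟨fun _ _ h => ⟨h.1.symm, h.2.1.imp Eq.symm (fun e => e.symm),
    h.2.2.imp Eq.symm (fun e => e.symm)⟩⟩
  loopless := ⟨fun _ h => h.1 rfl⟩

/-- The class of graphs with at most continuum many vertices and finite clique covering number. -/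
structure GInf where
  V : Type
  G : SimpleGraph V
  card_le : Cardinal.mk V ≤ Cardinal.continuum
  cover : ∃ n : ℕ, Cohom G (⊥ : SimpleGraph (Fin n))

theorem Cohom.trans {G : SimpleGraph V} {H : SimpleGraph W} {K : SimpleGraph U}
    (h : Cohom G H) (h' : Cohom H K) : Cohom G K := by
  obtain ⟨f, hf⟩ := h
  obtain ⟨g, hg⟩ := h'
  exact ⟨g ∘ f, fun u v huv hadj => hg _ _ (hf u v huv hadj).1 (hf u v huv hadj).2⟩

theorem Cohom.refl (G : SimpleGraph V) : Cohom G G := ⟨id, fun _ _ h h' => ⟨h, h'⟩⟩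

theorem cover_of_finite [Finite V] (G : SimpleGraph V) :
    ∃ n : ℕ, Cohom G (⊥ : SimpleGraph (Fin n)) := by
  obtain ⟨n, ⟨e⟩⟩ := Finite.exists_equiv_fin V
  exact ⟨n, e, fun u v h _ => ⟨fun h' => h (e.injective h'), by simp⟩⟩

theorem cohom_sum {V' W' : Type} {G : SimpleGraph V} {H : SimpleGraph W} {G' : SimpleGraph V'}
    {H' : SimpleGraph W'} (h : Cohom G G') (h' : Cohom H H') :
    Cohom (G.sum H) (G'.sum H') := by
  obtain ⟨f, hf⟩ := h
  obtain ⟨g, hg⟩ := h'
  refine ⟨Sum.map f g, ?_⟩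
  rintro (u | u) (v | v) huv hadj
  · have := hf u v (fun h => huv (by rw [h])) hadj
    exact ⟨fun h => this.1 (Sum.inl.inj h), this.2⟩
  · exact ⟨by simp, by simp [SimpleGraph.sum]⟩
  · exact ⟨by simp, by simp [SimpleGraph.sum]⟩
  · have := hg u v (fun h => huv (by rw [h])) hadj
    exact ⟨fun h => this.1 (Sum.inr.inj h), this.2⟩

theorem cohom_strong {V' W' : Type} {G : SimpleGraph V} {H : SimpleGraph W} {G' : SimpleGraph V'}
    {H' : SimpleGraph W'} (h : Cohom G G') (h' : Cohom H H') :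
    Cohom (strong G H) (strong G' H') := by
  obtain ⟨f, hf⟩ := h
  obtain ⟨g, hg⟩ := h'
  refine ⟨Prod.map f g, ?_⟩
  rintro ⟨u, u'⟩ ⟨v, v'⟩ huv hadj
  have h1 : (u ≠ v ∧ ¬ G.Adj u v) ∨ (u' ≠ v' ∧ ¬ H.Adj u' v') := by
    by_contra hcon
    push Not at hcon
    apply hadj
    refine ⟨huv, ?_, ?_⟩
    · by_cases h : u = v
      · exact Or.inl h
      · exact Or.inr (hcon.1 h)
    · by_cases h : u' = v'
      · exact Or.inl h
      · exact Or.inr (hcon.2 h)
  rcases h1 with h1 | h1
  · have h2 := hf u v h1.1 h1.2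
    refine ⟨fun h => h2.1 (congrArg Prod.fst h), fun h => ?_⟩
    rcases h.2.1 with h3 | h3
    · exact h2.1 h3
    · exact h2.2 h3
  · have h2 := hg u' v' h1.1 h1.2
    refine ⟨fun h => h2.1 (congrArg Prod.snd h), fun h => ?_⟩
    rcases h.2.2 with h3 | h3
    · exact h2.1 h3
    · exact h2.2 h3

theorem cohom_bot_sum (n m : ℕ) : Cohom ((⊥ : SimpleGraph (Fin n)).sum (⊥ : SimpleGraph (Fin m)))
    (⊥ : SimpleGraph (Fin (n + m))) :=
  ⟨finSumFinEquiv, fun _ _ h _ => ⟨fun h' => h (finSumFinEquiv.injective h'), by simp⟩⟩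

theorem cohom_bot_strong (n m : ℕ) :
    Cohom (strong (⊥ : SimpleGraph (Fin n)) (⊥ : SimpleGraph (Fin m)))
    (⊥ : SimpleGraph (Fin (n * m))) :=
  ⟨finProdFinEquiv, fun _ _ h _ => ⟨fun h' => h (finProdFinEquiv.injective h'), by simp⟩⟩

/-- Disjoint union in the class. -/
def GInf.sum (G H : GInf) : GInf where
  V := G.V ⊕ H.V
  G := G.G.sum H.G
  card_le := by
    rw [Cardinal.mk_sum, Cardinal.lift_id, Cardinal.lift_id]
    exact (add_le_add G.card_le H.card_le).trans_eq Cardinal.continuum_add_self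
  cover := by
    obtain ⟨n, hn⟩ := G.cover
    obtain ⟨m, hm⟩ := H.cover
    exact ⟨n + m, (cohom_sum hn hm).trans (cohom_bot_sum n m)⟩

/-- Strong product in the class. -/
def GInf.prod (G H : GInf) : GInf where
  V := G.V × H.V
  G := strong G.G H.G
  card_le := by
    rw [Cardinal.mk_prod, Cardinal.lift_id, Cardinal.lift_id]
    exact (mul_le_mul' G.card_le H.card_le).trans_eq Cardinal.continuum_mul_self
  cover := by
    obtain ⟨n, hn⟩ := G.cover
    obtain ⟨m, hm⟩ := H.cover
    exact ⟨n * m, (cohom_strong hn hm).trans (cohom_bot_strong n m)⟩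

/-- A finite graph as a member of the class. -/
def GInf.ofFinite {V : Type} [Finite V] (G : SimpleGraph V) : GInf where
  V := V
  G := G
  card_le := (Cardinal.lt_aleph0_of_finite V).le.trans Cardinal.aleph0_le_continuum
  cover := cover_of_finite G

/-- The edgeless graph on `n` vertices. -/
def E (n : ℕ) : GInf := GInf.ofFinite (⊥ : SimpleGraph (Fin n))

/-- The points of the asymptotic spectrum. -/
structure IsSpectral (F : GInf → ℝ) : Prop where
  nonneg : ∀ G, 0 ≤ F G
  add : ∀ G H, F (G.sum H) = F G + F H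
  mul : ∀ G H, F (G.prod H) = F G * F H
  one : ∀ n : ℕ, F (E n) = n
  mono : ∀ G H : GInf, Cohom G.G H.G → F G ≤ F H

/-- The asymptotic spectrum distance. -/
noncomputable def dist (G H : GInf) : ENNReal :=
  ⨆ (F : GInf → ℝ) (_ : IsSpectral F), ENNReal.ofReal |F G - F H|

/-! ### Fractional clique covers with finitely many cliques -/

open Classical in
/-- `G` has a fractional clique cover with finitely many cliques and total weight `τ`. -/
def IsCov (G : SimpleGraph V) (τ : ℝ) : Prop :=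
  ∃ (ι : Type) (_ : Fintype ι) (C : ι → Set V) (w : ι → ℝ), (∀ j, G.IsClique (C j)) ∧
    (∀ j, 0 ≤ w j) ∧ (∀ v, 1 ≤ ∑ j, if v ∈ C j then w j else 0) ∧ ∑ j, w j = τ

/-- The fractional clique covering number (finitely many cliques). -/
noncomputable def P (G : SimpleGraph V) : ℝ := sInf {τ | IsCov G τ}

theorem IsCov.nonneg {G : SimpleGraph V} {τ : ℝ} (h : IsCov G τ) : 0 ≤ τ := by
  obtain ⟨ι, _, C, w, -, hw, -, rfl⟩ := h
  exact Finset.sum_nonneg fun j _ => hw j

theorem P_le {G : SimpleGraph V} {τ : ℝ} (h : IsCov G τ) : P G ≤ τ :=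
  csInf_le ⟨0, fun _ h => h.nonneg⟩ h

theorem P_nonneg (G : SimpleGraph V) : 0 ≤ P G := Real.sInf_nonneg fun _ h => h.nonneg

theorem le_P {G : SimpleGraph V} (hG : ∃ τ, IsCov G τ) {a : ℝ} (h : ∀ τ, IsCov G τ → a ≤ τ) :
    a ≤ P G := le_csInf hG h

theorem IsCov.of_cohom {G : SimpleGraph V} {H : SimpleGraph W} (h : Cohom G H) {τ : ℝ}
    (hτ : IsCov H τ) : IsCov G τ := by
  classical
  obtain ⟨f, hf⟩ := h
  obtain ⟨ι, hι, C, w, hC, hw, hcov, rfl⟩ := hτ
  refine ⟨ι, hι, fun j => f ⁻¹' (C j), w, fun j => ?_, hw, fun v => ?_, rfl⟩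
  · intro u hu v hv huv
    by_contra hadj
    have := hf u v huv hadj
    exact this.2 (hC j hu hv this.1)
  · simpa using hcov (f v)

theorem isCov_bot (n : ℕ) : IsCov (⊥ : SimpleGraph (Fin n)) n := by
  classical
  refine ⟨Fin n, inferInstance, fun j => {j}, fun _ => 1, ?_, ?_, ?_, by simp⟩
  · intro j
    simp
  · intro j
    exact zero_le_one
  · intro v
    simp

theorem GInf.isCov (G : GInf) : ∃ τ, IsCov G.G τ := by
  obtain ⟨n, hn⟩ := G.cover
  exact ⟨n, (isCov_bot n).of_cohom hn⟩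

theorem P_mono {G : SimpleGraph V} {H : SimpleGraph W} (hH : ∃ τ, IsCov H τ) (h : Cohom G H) :
    P G ≤ P H := le_P hH fun _ hτ => P_le (hτ.of_cohom h)

open Classical in
/-- scaling -/
theorem scaled {G : SimpleGraph V} {ι : Type} [Fintype ι] {C : ι → Set V} {w : ι → ℝ}
    (hC : ∀ j, G.IsClique (C j)) (hw : ∀ j, 0 ≤ w j) {a : ℝ} (ha : 0 ≤ a)
    (hcov : ∀ v, a ≤ ∑ j, if v ∈ C j then w j else 0) : a * P G ≤ ∑ j, w j := by
  rcases ha.eq_or_lt with rfl | ha
  · rw [zero_mul]
    exact Finset.sum_nonneg fun j _ => hw j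
  · have h : IsCov G (∑ j, w j / a) := by
      refine ⟨ι, inferInstance, C, fun j => w j / a, hC, fun j => div_nonneg (hw j) ha.le,
        fun v => ?_, rfl⟩
      have h1 : (∑ j, if v ∈ C j then w j / a else 0) = (∑ j, if v ∈ C j then w j else 0) / a := by
        rw [Finset.sum_div]
        refine Finset.sum_congr rfl fun j _ => ?_
        split_ifs
        · rfl
        · simp
      rw [h1, le_div_iff₀ ha, one_mul]
      exact hcov v
    have h2 := P_le h
    rw [← Finset.sum_div, le_div_iff₀ ha] at h2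
    linarith

open Classical in
/-- packing -/
theorem pack {ι : Type} [Fintype ι] {C : ι → Set V} {w : ι → ℝ}
    (hw : ∀ j, 0 ≤ w j) (hcov : ∀ v, 1 ≤ ∑ j, if v ∈ C j then w j else 0) {n : ℕ} (x : Fin n → V)
    (hx : ∀ j i i', x i ∈ C j → x i' ∈ C j → i = i') : (n : ℝ) ≤ ∑ j, w j := by
  have h1 : (n : ℝ) ≤ ∑ i : Fin n, ∑ j, if x i ∈ C j then w j else 0 := by
    calc (n : ℝ) = ∑ i : Fin n, (1 : ℝ) := by simp
      _ ≤ _ := Finset.sum_le_sum fun i _ => hcov (x i)
  rw [Finset.sum_comm] at h1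
  refine h1.trans (Finset.sum_le_sum fun j _ => ?_)
  by_cases h : ∃ i, x i ∈ C j
  · obtain ⟨i0, hi0⟩ := h
    rw [Finset.sum_eq_single i0]
    · rw [if_pos hi0]
    · intro i _ hi
      rw [if_neg]
      intro hi'
      exact hi (hx j i i0 hi' hi0)
    · simp
  · push Not at h
    rw [Finset.sum_eq_zero]
    · exact hw j
    · intro i _
      rw [if_neg (h i)]

theorem P_bot (n : ℕ) : P (⊥ : SimpleGraph (Fin n)) = n := by
  classical
  refine le_antisymm (P_le (isCov_bot n)) (le_P ⟨_, isCov_bot n⟩ ?_)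
  rintro τ ⟨ι, hι, C, w, hC, hw, hcov, rfl⟩
  refine pack hw hcov id ?_
  intro j i i' hi hi'
  by_contra hne
  exact hC j hi hi' hne

theorem inf_add {a b x : ℝ} {A B : Set ℝ} (hA : A.Nonempty) (hB : B.Nonempty) (ha : a = sInf A)
    (hb : b = sInf B) (h : ∀ s ∈ A, ∀ t ∈ B, x ≤ s + t) : x ≤ a + b := by
  have h1 : x - b ≤ a := by
    rw [ha]
    refine le_csInf hA fun s hs => ?_
    have h2 : x - s ≤ b := by
      rw [hb]
      refine le_csInf hB fun t ht => ?_
      linarith [h s hs t ht]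
    linarith
  linarith

theorem inf_mul_one {a x c : ℝ} {A : Set ℝ} (hA : A.Nonempty) (ha : a = sInf A) (hc : 0 ≤ c)
    (h : ∀ s ∈ A, x ≤ c * s) : x ≤ c * a := by
  rcases hc.eq_or_lt with rfl | hc
  · obtain ⟨s, hs⟩ := hA
    simpa using h s hs
  · have : x / c ≤ a := by
      rw [ha]
      refine le_csInf hA fun s hs => ?_
      rw [div_le_iff₀ hc]
      linarith [h s hs]
    rw [div_le_iff₀ hc] at this
    linarith

theorem P_sum {G : SimpleGraph V} {H : SimpleGraph W} (hG : ∃ τ, IsCov G τ)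
    (hH : ∃ τ, IsCov H τ) : P (G.sum H) = P G + P H := by
  classical
  have hcovsum : ∀ s, IsCov G s → ∀ t, IsCov H t → IsCov (G.sum H) (s + t) := by
    rintro s ⟨ι, hι, C, w, hC, hw, hcov, rfl⟩ t ⟨ι', hι', C', w', hC', hw', hcov', rfl⟩
    refine ⟨ι ⊕ ι', inferInstance, Sum.elim (fun j => Sum.inl '' (C j)) (fun j => Sum.inr '' (C' j)),
      Sum.elim w w', ?_, ?_, ?_, by simp⟩
    · rintro (j | j)
      · rintro _ ⟨u, hu, rfl⟩ _ ⟨v, hv, rfl⟩ huv
        exact hC j hu hv (fun h => huv (by rw [h]))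
      · rintro _ ⟨u, hu, rfl⟩ _ ⟨v, hv, rfl⟩ huv
        exact hC' j hu hv (fun h => huv (by rw [h]))
    · rintro (j | j)
      · exact hw j
      · exact hw' j
    · rintro (v | v)
      · simpa using hcov v
      · simpa using hcov' v
  apply le_antisymm
  · refine inf_add hG hH rfl rfl fun s hs t ht => P_le (hcovsum s hs t ht)
  · obtain ⟨s, hs⟩ := hG
    obtain ⟨t, ht⟩ := hH
    refine le_P ⟨_, hcovsum s hs t ht⟩ ?_
    rintro τ ⟨ι, hι, C, w, hC, hw, hcov, rfl⟩
    have hsep : ∀ j v v', Sum.inl v ∈ C j → Sum.inr v' ∈ C j → False := by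
      intro j v v' h h'
      have := hC j h h' (by simp)
      simp [SimpleGraph.sum] at this
    have h1 : P G ≤ ∑ j, if (∃ v, Sum.inl v ∈ C j) then w j else 0 := by
      apply P_le
      refine ⟨ι, hι, fun j => Sum.inl ⁻¹' (C j), _, ?_, ?_, ?_, rfl⟩
      · intro j u hu v hv huv
        exact hC j hu hv (fun h => huv (Sum.inl.inj h))
      · intro j
        split_ifs
        · exact hw j
        · exact le_rfl
      · intro v
        refine (hcov (Sum.inl v)).trans (Finset.sum_le_sum fun j _ => ?_)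
        by_cases h : Sum.inl v ∈ C j
        · have h' : v ∈ Sum.inl ⁻¹' (C j) := h
          rw [if_pos h, if_pos h', if_pos ⟨v, h⟩]
        · have h' : v ∉ Sum.inl ⁻¹' (C j) := h
          rw [if_neg h, if_neg h']
    have h2 : P H ≤ ∑ j, if (∃ v, Sum.inl v ∈ C j) then 0 else w j := by
      apply P_le
      refine ⟨ι, hι, fun j => Sum.inr ⁻¹' (C j), _, ?_, ?_, ?_, rfl⟩
      · intro j u hu v hv huv
        exact hC j hu hv (fun h => huv (Sum.inr.inj h))
      · intro j
        split_ifs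
        · exact le_rfl
        · exact hw j
      · intro v
        refine (hcov (Sum.inr v)).trans (Finset.sum_le_sum fun j _ => ?_)
        by_cases h : Sum.inr v ∈ C j
        · have h' : v ∈ Sum.inr ⁻¹' (C j) := h
          rw [if_pos h, if_pos h', if_neg]
          rintro ⟨u, hu⟩
          exact hsep j u v hu h
        · have h' : v ∉ Sum.inr ⁻¹' (C j) := h
          rw [if_neg h, if_neg h']
    refine (add_le_add h1 h2).trans_eq ?_
    rw [← Finset.sum_add_distrib]
    refine Finset.sum_congr rfl fun j _ => ?_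
    split_ifs <;> simp

theorem P_strong {G : SimpleGraph V} {H : SimpleGraph W} (hG : ∃ τ, IsCov G τ)
    (hH : ∃ τ, IsCov H τ) : P (strong G H) = P G * P H := by
  classical
  have hcovp : ∀ s, IsCov G s → ∀ t, IsCov H t → IsCov (strong G H) (s * t) := by
    rintro s ⟨ι, hι, C, w, hC, hw, hcov, rfl⟩ t ⟨ι', hι', C', w', hC', hw', hcov', rfl⟩
    refine ⟨ι × ι', inferInstance, fun j => C j.1 ×ˢ C' j.2, fun j => w j.1 * w' j.2, ?_, ?_, ?_, ?_⟩
    · rintro ⟨j, j'⟩ ⟨u, u'⟩ hu ⟨v, v'⟩ hv huv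
      refine ⟨huv, ?_, ?_⟩
      · by_cases h : u = v
        · exact Or.inl h
        · exact Or.inr (hC j hu.1 hv.1 h)
      · by_cases h : u' = v'
        · exact Or.inl h
        · exact Or.inr (hC' j' hu.2 hv.2 h)
    · rintro ⟨j, j'⟩
      exact mul_nonneg (hw j) (hw' j')
    · rintro ⟨v, v'⟩
      have h1 : (∑ j : ι × ι', if (v, v') ∈ C j.1 ×ˢ C' j.2 then w j.1 * w' j.2 else 0) =
          (∑ j, if v ∈ C j then w j else 0) * (∑ j, if v' ∈ C' j then w' j else 0) := by
        rw [Finset.sum_mul_sum, Fintype.sum_prod_type]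
        refine Finset.sum_congr rfl fun j _ => Finset.sum_congr rfl fun j' _ => ?_
        by_cases ha : v ∈ C j <;> by_cases hb : v' ∈ C' j' <;> simp [ha, hb]
      have h2 : (1 : ℝ) ≤ (∑ j, if v ∈ C j then w j else 0) *
          (∑ j, if v' ∈ C' j then w' j else 0) := by
        calc (1 : ℝ) = 1 * 1 := by ring
          _ ≤ _ := mul_le_mul (hcov v) (hcov' v') zero_le_one (zero_le_one.trans (hcov v))
      refine (h2.trans_eq h1.symm).trans_eq ?_
      refine Finset.sum_congr rfl fun j _ => ?_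
      congr
    · rw [Finset.sum_mul_sum, Fintype.sum_prod_type]
  apply le_antisymm
  · refine inf_mul_one hH rfl (P_nonneg G) fun t ht => ?_
    rw [mul_comm]
    refine inf_mul_one hG rfl (IsCov.nonneg ht) fun s hs => ?_
    rw [mul_comm]
    exact P_le (hcovp s hs t ht)
  · obtain ⟨s, hs⟩ := hG
    obtain ⟨t, ht⟩ := hH
    refine le_P ⟨_, hcovp s hs t ht⟩ ?_
    rintro τ ⟨ι, hι, C, w, hC, hw, hcov, rfl⟩
    have hfst : ∀ j, G.IsClique (Prod.fst '' (C j)) := by
      rintro j _ ⟨⟨u, u'⟩, hu, rfl⟩ _ ⟨⟨v, v'⟩, hv, rfl⟩ huv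
      have := hC j hu hv (fun h => huv (congrArg Prod.fst h))
      exact this.2.1.resolve_left huv
    have hsnd : ∀ j, H.IsClique (Prod.snd '' (C j)) := by
      rintro j _ ⟨⟨u, u'⟩, hu, rfl⟩ _ ⟨⟨v, v'⟩, hv, rfl⟩ huv
      have := hC j hu hv (fun h => huv (congrArg Prod.snd h))
      exact this.2.2.resolve_left huv
    refine scaled hsnd hw (P_nonneg G) fun y => ?_
    apply P_le
    refine ⟨ι, hι, fun j => Prod.fst '' (C j), _, hfst, ?_, ?_, rfl⟩
    · intro j
      split_ifs
      · exact hw j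
      · exact le_rfl
    · intro v
      refine (hcov (v, y)).trans (Finset.sum_le_sum fun j _ => ?_)
      by_cases h : (v, y) ∈ C j
      · have h1 : v ∈ Prod.fst '' (C j) := ⟨(v, y), h, rfl⟩
        have h2 : y ∈ Prod.snd '' (C j) := ⟨(v, y), h, rfl⟩
        rw [if_pos h, if_pos h1, if_pos h2]
      · rw [if_neg h]
        split_ifs
        · exact hw j
        · exact le_rfl
        · exact le_rfl

/-- The first spectral point. -/
noncomputable def Fb (G : GInf) : ℝ := P G.G

theorem Fb_spectral : IsSpectral Fb where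
  nonneg G := P_nonneg _
  add G H := P_sum G.isCov H.isCov
  mul G H := P_strong G.isCov H.isCov
  one n := P_bot n
  mono G H h := P_mono H.isCov h

/-! ### The second spectral point -/

/-- the values of `P` at finite graphs below `G` -/
def below (G : GInf) : Set ℝ := {x | ∃ H : GInf, Finite H.V ∧ Cohom H.G G.G ∧ P H.G = x}

/-- The second spectral point. -/
noncomputable def Fa (G : GInf) : ℝ := sSup (below G)

theorem below_bdd (G : GInf) : BddAbove (below G) := by
  refine ⟨P G.G, ?_⟩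
  rintro x ⟨H, -, h, rfl⟩
  exact P_mono G.isCov h

theorem below_nonempty (G : GInf) : (below G).Nonempty := by
  refine ⟨_, E 0, ?_, ⟨fun i => i.elim0, fun i => i.elim0⟩, rfl⟩
  change Finite (Fin 0)
  infer_instance

theorem le_Fa {G H : GInf} (hH : Finite H.V) (h : Cohom H.G G.G) : P H.G ≤ Fa G :=
  le_csSup (below_bdd G) ⟨H, hH, h, rfl⟩

theorem Fa_nonneg (G : GInf) : 0 ≤ Fa G := by
  obtain ⟨x, hx⟩ := below_nonempty G
  have h0 : 0 ≤ x := by
    obtain ⟨H, -, -, rfl⟩ := hx
    exact P_nonneg _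
  exact h0.trans (le_csSup (below_bdd G) hx)

theorem Fa_finite {G : GInf} (hG : Finite G.V) : Fa G = P G.G := by
  refine le_antisymm (csSup_le (below_nonempty G) ?_) (le_Fa hG (Cohom.refl _))
  rintro x ⟨H, -, h, rfl⟩
  exact P_mono G.isCov h

theorem Fa_mono {G H : GInf} (h : Cohom G.G H.G) : Fa G ≤ Fa H := by
  refine csSup_le (below_nonempty G) ?_
  rintro x ⟨K, hK, hK', rfl⟩
  exact le_Fa hK (hK'.trans h)

theorem Fa_spectral : IsSpectral Fa where
  nonneg G := Fa_nonneg G
  add G H := by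
    apply le_antisymm
    · refine csSup_le (below_nonempty _) ?_
      rintro x ⟨K, hK, ⟨f, hf⟩, rfl⟩
      let f' : K.V → G.V ⊕ H.V := f
      let S : Set G.V := {v | ∃ k, f' k = Sum.inl v}
      let T : Set H.V := {v | ∃ k, f' k = Sum.inr v}
      have hS : Finite S := by
        have : (Sum.inl '' S : Set (G.V ⊕ H.V)).Finite := by
          refine (Set.finite_range f').subset ?_
          rintro _ ⟨v, ⟨k, hk⟩, rfl⟩
          exact ⟨k, hk⟩
        exact (Set.Finite.of_finite_image this Sum.inl_injective.injOn).to_subtype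
      have hT : Finite T := by
        have : (Sum.inr '' T : Set (G.V ⊕ H.V)).Finite := by
          refine (Set.finite_range f').subset ?_
          rintro _ ⟨v, ⟨k, hk⟩, rfl⟩
          exact ⟨k, hk⟩
        exact (Set.Finite.of_finite_image this Sum.inr_injective.injOn).to_subtype
      have h1 : Cohom (G.G.induce S) G.G :=
        ⟨Subtype.val, fun u v h h' => ⟨fun e => h (Subtype.ext e), h'⟩⟩
      have h2 : Cohom (H.G.induce T) H.G :=
        ⟨Subtype.val, fun u v h h' => ⟨fun e => h (Subtype.ext e), h'⟩⟩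
      have h3 : Cohom K.G ((G.G.induce S).sum (H.G.induce T)) := by
        have hex : ∀ k, ∃ z : S ⊕ T, Sum.map Subtype.val Subtype.val z = f' k := by
          intro k
          cases h : f' k with
          | inl v => exact ⟨Sum.inl ⟨v, k, h⟩, rfl⟩
          | inr v => exact ⟨Sum.inr ⟨v, k, h⟩, rfl⟩
        choose g hg using hex
        refine ⟨g, fun u v huv hadj => ?_⟩
        have h4 := hf u v huv hadj
        refine ⟨fun e => h4.1 ?_, fun e => h4.2 ?_⟩
        · change f' u = f' v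
          rw [← hg, ← hg, e]
        · change (G.G.sum H.G).Adj (f' u) (f' v)
          rw [← hg, ← hg]
          cases hu : g u with
          | inl a =>
            cases hv : g v with
            | inl b => rw [hu, hv] at e; exact e
            | inr b => rw [hu, hv] at e; simp [SimpleGraph.sum] at e
          | inr a =>
            cases hv : g v with
            | inl b => rw [hu, hv] at e; simp [SimpleGraph.sum] at e
            | inr b => rw [hu, hv] at e; exact e
      have h5 : ∃ τ, IsCov (G.G.induce S) τ := (GInf.ofFinite (G.G.induce S)).isCov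
      have h6 : ∃ τ, IsCov (H.G.induce T) τ := (GInf.ofFinite (H.G.induce T)).isCov
      have h7 := ((GInf.ofFinite (G.G.induce S)).sum (GInf.ofFinite (H.G.induce T))).isCov
      have h8 : P K.G ≤ P ((G.G.induce S).sum (H.G.induce T)) := P_mono h7 h3
      rw [P_sum h5 h6] at h8
      refine h8.trans (add_le_add ?_ ?_)
      · exact le_Fa (H := GInf.ofFinite (G.G.induce S)) hS h1
      · exact le_Fa (H := GInf.ofFinite (H.G.induce T)) hT h2
    · have h1 : ∀ x ∈ below G, ∀ y ∈ below H, x + y ≤ Fa (G.sum H) := by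
        rintro x ⟨K, hK, hK', rfl⟩ y ⟨L, hL, hL', rfl⟩
        rw [← P_sum K.isCov L.isCov]
        have : Finite (K.sum L).V := by
          change Finite (K.V ⊕ L.V)
          infer_instance
        exact le_Fa (H := K.sum L) this (cohom_sum hK' hL')
      have h2 : ∀ y ∈ below H, Fa G + y ≤ Fa (G.sum H) := by
        intro y hy
        have : Fa G ≤ Fa (G.sum H) - y :=
          csSup_le (below_nonempty G) fun x hx => by linarith [h1 x hx y hy]
        linarith
      have : Fa H ≤ Fa (G.sum H) - Fa G :=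
        csSup_le (below_nonempty H) fun y hy => by linarith [h2 y hy]
      linarith
  mul G H := by
    apply le_antisymm
    · refine csSup_le (below_nonempty _) ?_
      rintro x ⟨K, hK, ⟨f, hf⟩, rfl⟩
      let f' : K.V → G.V × H.V := f
      let S : Set G.V := Set.range fun k => (f' k).1
      let T : Set H.V := Set.range fun k => (f' k).2
      have hS : Finite S := (Set.finite_range _).to_subtype
      have hT : Finite T := (Set.finite_range _).to_subtype
      have h1 : Cohom (G.G.induce S) G.G :=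
        ⟨Subtype.val, fun u v h h' => ⟨fun e => h (Subtype.ext e), h'⟩⟩
      have h2 : Cohom (H.G.induce T) H.G :=
        ⟨Subtype.val, fun u v h h' => ⟨fun e => h (Subtype.ext e), h'⟩⟩
      have h3 : Cohom K.G (strong (G.G.induce S) (H.G.induce T)) := by
        refine ⟨fun k => (⟨(f' k).1, k, rfl⟩, ⟨(f' k).2, k, rfl⟩), fun u v huv hadj => ?_⟩
        have h4 := hf u v huv hadj
        refine ⟨fun e => h4.1 ?_, fun e => h4.2 ?_⟩
        · have e1 := congrArg (fun z => z.1.val) e
          have e2 := congrArg (fun z => z.2.val) e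
          exact Prod.ext e1 e2
        · refine ⟨h4.1, ?_, ?_⟩
          · rcases e.2.1 with e1 | e1
            · exact Or.inl (congrArg Subtype.val e1)
            · exact Or.inr e1
          · rcases e.2.2 with e1 | e1
            · exact Or.inl (congrArg Subtype.val e1)
            · exact Or.inr e1
      have h5 : ∃ τ, IsCov (G.G.induce S) τ := (GInf.ofFinite (G.G.induce S)).isCov
      have h6 : ∃ τ, IsCov (H.G.induce T) τ := (GInf.ofFinite (H.G.induce T)).isCov
      have h7 := ((GInf.ofFinite (G.G.induce S)).prod (GInf.ofFinite (H.G.induce T))).isCov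
      have h8 : P K.G ≤ P (strong (G.G.induce S) (H.G.induce T)) := P_mono h7 h3
      rw [P_strong h5 h6] at h8
      refine h8.trans (mul_le_mul ?_ ?_ (P_nonneg _) (Fa_nonneg _))
      · exact le_Fa (H := GInf.ofFinite (G.G.induce S)) hS h1
      · exact le_Fa (H := GInf.ofFinite (H.G.induce T)) hT h2
    · have h1 : ∀ x ∈ below G, ∀ y ∈ below H, x * y ≤ Fa (G.prod H) := by
        rintro x ⟨K, hK, hK', rfl⟩ y ⟨L, hL, hL', rfl⟩
        rw [← P_strong K.isCov L.isCov]
        have : Finite (K.prod L).V := by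
          change Finite (K.V × L.V)
          infer_instance
        exact le_Fa (H := K.prod L) this (cohom_strong hK' hL')
      have h0 : 0 ≤ Fa (G.prod H) := Fa_nonneg _
      have h2 : ∀ y ∈ below H, Fa G * y ≤ Fa (G.prod H) := by
        intro y hy
        have hy0 : 0 ≤ y := by
          obtain ⟨L, -, -, rfl⟩ := hy
          exact P_nonneg _
        rcases hy0.eq_or_lt with rfl | hy0
        · simpa using h0
        · have : Fa G ≤ Fa (G.prod H) / y :=
            csSup_le (below_nonempty G) fun x hx => by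
              rw [le_div_iff₀ hy0]
              exact h1 x hx y hy
          rwa [le_div_iff₀ hy0] at this
      rcases (Fa_nonneg G).eq_or_lt with h3 | h3
      · rw [← h3, zero_mul]
        exact h0
      · have : Fa H ≤ Fa (G.prod H) / Fa G :=
          csSup_le (below_nonempty H) fun y hy => by
            rw [le_div_iff₀ h3, mul_comm]
            exact h2 y hy
        rw [le_div_iff₀ h3, mul_comm] at this
        exact this
  one n := by
    rw [Fa_finite]
    · exact P_bot n
    · change Finite (Fin n)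
      infer_instance
  mono G H h := Fa_mono h



/-! ### Powers -/

/-- The strong power with coordinates in `Fin N`. -/
def piG (G : SimpleGraph V) (N : ℕ) : SimpleGraph (Fin N → V) where
  Adj p q := p ≠ q ∧ ∀ i, p i = q i ∨ G.Adj (p i) (q i)
  symm := ⟨fun _ _ h => ⟨h.1.symm, fun i => (h.2 i).imp Eq.symm (fun e => e.symm)⟩⟩
  loopless := ⟨fun _ h => h.1 rfl⟩

/-- distinct and non-adjacent -/
def Sep (G : SimpleGraph V) (u v : V) : Prop := u ≠ v ∧ ¬ G.Adj u v

theorem Sep.symm {G : SimpleGraph V} {u v : V} (h : Sep G u v) : Sep G v u :=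
  ⟨h.1.symm, fun h' => h.2 h'.symm⟩

theorem cohom_iff {G : SimpleGraph V} {H : SimpleGraph W} :
    Cohom G H ↔ ∃ f : V → W, ∀ u v, Sep G u v → Sep H (f u) (f v) :=
  ⟨fun ⟨f, hf⟩ => ⟨f, fun u v h => hf u v h.1 h.2⟩, fun ⟨f, hf⟩ => ⟨f, fun u v h h' => hf u v ⟨h, h'⟩⟩⟩

theorem sep_piG {G : SimpleGraph V} {N : ℕ} {p q : Fin N → V} :
    Sep (piG G N) p q ↔ ∃ i, Sep G (p i) (q i) := by
  constructor
  · rintro ⟨h1, h2⟩
    by_contra hcon
    push Not at hcon
    refine h2 ⟨h1, fun i => ?_⟩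
    by_contra h3
    push Not at h3
    exact hcon i ⟨h3.1, h3.2⟩
  · rintro ⟨i, h1, h2⟩
    refine ⟨fun e => h1 (by rw [e]), fun h => ?_⟩
    rcases h.2 i with h3 | h3
    · exact h1 h3
    · exact h2 h3

theorem sep_strong {G : SimpleGraph V} {H : SimpleGraph W} {p q : V × W} :
    Sep (strong G H) p q ↔ Sep G p.1 q.1 ∨ Sep H p.2 q.2 := by
  constructor
  · rintro ⟨h1, h2⟩
    by_contra hcon
    push Not at hcon
    refine h2 ⟨h1, ?_, ?_⟩
    · by_contra h3
      push Not at h3
      exact hcon.1 ⟨h3.1, h3.2⟩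
    · by_contra h3
      push Not at h3
      exact hcon.2 ⟨h3.1, h3.2⟩
  · rintro (⟨h1, h2⟩ | ⟨h1, h2⟩)
    · refine ⟨fun e => h1 (by rw [e]), fun h => ?_⟩
      rcases h.2.1 with h3 | h3
      · exact h1 h3
      · exact h2 h3
    · refine ⟨fun e => h1 (by rw [e]), fun h => ?_⟩
      rcases h.2.2 with h3 | h3
      · exact h1 h3
      · exact h2 h3

theorem sep_bot {n : ℕ} {a b : Fin n} : Sep (⊥ : SimpleGraph (Fin n)) a b ↔ a ≠ b := by
  simp [Sep]

theorem card_pi_le {V : Type} (h : Cardinal.mk V ≤ Cardinal.continuum) (N : ℕ) :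
    Cardinal.mk (Fin N → V) ≤ Cardinal.continuum := by
  induction N with
  | zero =>
    have : Cardinal.mk (Fin 0 → V) = 1 := by simp
    rw [this]
    exact Cardinal.one_lt_aleph0.le.trans Cardinal.aleph0_le_continuum
  | succ n ih =>
    have e : (Fin (n + 1) → V) ≃ V × (Fin n → V) := (Fin.consEquiv (fun _ => V)).symm
    rw [Cardinal.mk_congr e, Cardinal.mk_prod, Cardinal.lift_id, Cardinal.lift_id]
    exact (mul_le_mul' h ih).trans_eq Cardinal.continuum_mul_self

/-- The strong power in the class. -/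
def GInf.pi (G : GInf) (N : ℕ) : GInf where
  V := Fin N → G.V
  G := piG G.G N
  card_le := card_pi_le G.card_le N
  cover := by
    obtain ⟨n, hn⟩ := G.cover
    obtain ⟨f, hf⟩ := cohom_iff.1 hn
    obtain ⟨m, hm⟩ := cover_of_finite (piG (⊥ : SimpleGraph (Fin n)) N)
    refine ⟨m, Cohom.trans (cohom_iff.2 ⟨fun p i => f (p i), fun p q h => ?_⟩) hm⟩
    obtain ⟨i, hi⟩ := sep_piG.1 h
    exact sep_piG.2 ⟨i, hf _ _ hi⟩

theorem cohom_snoc (G : SimpleGraph V) (n : ℕ) :
    Cohom (strong (piG G n) G) (piG G (n + 1)) := by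
  apply cohom_iff.2
  refine ⟨fun p => Fin.snoc (α := fun _ => V) p.1 p.2, fun p q h => ?_⟩
  rcases sep_strong.1 h with h1 | h1
  · obtain ⟨i, hi⟩ := sep_piG.1 h1
    refine sep_piG.2 ⟨Fin.castSucc i, ?_⟩
    beta_reduce
    rw [Fin.snoc_castSucc, Fin.snoc_castSucc]
    exact hi
  · refine sep_piG.2 ⟨Fin.last n, ?_⟩
    beta_reduce
    rw [Fin.snoc_last, Fin.snoc_last]
    exact h1

theorem IsSpectral.pi {F : GInf → ℝ} (hF : IsSpectral F) (G : GInf) (N : ℕ) :
    F (G.pi N) = F G ^ N := by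
  induction N with
  | zero =>
    rw [pow_zero]
    have h1 : F (E 1) = 1 := by simpa using hF.one 1
    rw [← h1]
    apply le_antisymm
    · apply hF.mono
      apply cohom_iff.2
      refine ⟨fun _ => (0 : Fin 1), fun p q h => ?_⟩
      obtain ⟨i, -⟩ := sep_piG.1 h
      exact i.elim0
    · apply hF.mono
      apply cohom_iff.2
      refine ⟨fun _ => (fun i => i.elim0 : Fin 0 → G.V), fun p q h => ?_⟩
      exact absurd (Subsingleton.elim (α := Fin 1) p q) h.1
  | succ n ih =>
    rw [pow_succ, ← ih, ← hF.mul]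
    apply le_antisymm
    · apply hF.mono
      apply cohom_iff.2
      refine ⟨fun p => ((fun i => p (Fin.castSucc i) : Fin n → G.V), p (Fin.last n)), fun p q h => ?_⟩
      obtain ⟨i, hi⟩ := sep_piG.1 h
      refine sep_strong.2 ?_
      induction i using Fin.lastCases with
      | last => exact Or.inr hi
      | cast i => exact Or.inl (sep_piG.2 ⟨i, hi⟩)
    · exact hF.mono _ _ (cohom_snoc G.G n)

/-- hitting sets -/
theorem hit {Ω W : Type} [Fintype Ω] [Fintype W] [DecidableEq Ω] (S : W → Finset Ω) (s B : ℕ)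
    (hB : Fintype.card W ≤ B)
    (hS : ∀ w, s ≤ (S w).card) (M : ℕ)
    (h : B * (Fintype.card Ω - s) ^ M < (Fintype.card Ω) ^ M) :
    ∃ g : Fin M → Ω, ∀ w, ∃ j, g j ∈ S w := by
  classical
  by_contra hcon
  push Not at hcon
  have h1 : (univ : Finset (Fin M → Ω)) ⊆
      (univ : Finset W).biUnion fun w => Fintype.piFinset fun _ => (S w)ᶜ := by
    intro g _
    obtain ⟨w, hw⟩ := hcon g
    rw [mem_biUnion]
    refine ⟨w, mem_univ _, ?_⟩
    rw [Fintype.mem_piFinset]
    intro j
    rw [mem_compl]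
    exact hw j
  have h2 := (card_le_card h1).trans card_biUnion_le
  rw [card_univ, Fintype.card_fun, Fintype.card_fin] at h2
  have h3 : ∑ w : W, (Fintype.piFinset fun _ : Fin M => (S w)ᶜ).card ≤
      B * (Fintype.card Ω - s) ^ M := by
    calc _ ≤ ∑ w : W, (Fintype.card Ω - s) ^ M := by
          refine sum_le_sum fun w _ => ?_
          rw [Fintype.card_piFinset, prod_const, card_univ, Fintype.card_fin]
          apply Nat.pow_le_pow_left
          rw [card_compl]
          have := hS w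
          omega
      _ = Fintype.card W * (Fintype.card Ω - s) ^ M := by
          rw [sum_const, card_univ, smul_eq_mul]
      _ ≤ _ := Nat.mul_le_mul_right _ hB
  omega

theorem numeric {m t N M : ℕ} (ht : 1 ≤ t) (htm : t ≤ m) (hN : 1 ≤ N)
    (hM : ((m : ℝ) / t) ^ N * (m * N) ≤ M) :
    2 ^ (m * N) * (m ^ N - t ^ N) ^ M < (m ^ N) ^ M := by
  have hm : 1 ≤ m := ht.trans htm
  have ht0 : (0 : ℝ) < t := by exact_mod_cast ht
  have hm0 : (0 : ℝ) < m := by exact_mod_cast hm
  have hle : t ^ N ≤ m ^ N := Nat.pow_le_pow_left htm N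
  have hmN : (0 : ℝ) < (m : ℝ) ^ N := by positivity
  have key : (2 : ℝ) ^ (m * N) * (1 - ((t : ℝ) / m) ^ N) ^ M < 1 := by
    have h1 : (1 - ((t : ℝ) / m) ^ N) ^ M ≤ Real.exp (-(((t : ℝ) / m) ^ N)) ^ M := by
      apply pow_le_pow_left₀
      · rw [sub_nonneg]
        apply pow_le_one₀ (by positivity)
        rw [div_le_one hm0]
        exact_mod_cast htm
      · exact Real.one_sub_le_exp_neg _
    have h2 : Real.exp (-(((t : ℝ) / m) ^ N)) ^ M ≤ Real.exp (-((m : ℝ) * N)) := by
      rw [← Real.exp_nat_mul]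
      apply Real.exp_le_exp.2
      have h3 : (m : ℝ) * N ≤ M * ((t : ℝ) / m) ^ N := by
        have h4 : ((m : ℝ) / t) ^ N * (m * N) * ((t : ℝ) / m) ^ N = m * N := by
          rw [div_pow, div_pow]
          field_simp
        calc (m : ℝ) * N = ((m : ℝ) / t) ^ N * (m * N) * ((t : ℝ) / m) ^ N := h4.symm
          _ ≤ M * ((t : ℝ) / m) ^ N := by
            apply mul_le_mul_of_nonneg_right hM
            positivity
      linarith
    have h5 : (2 : ℝ) ^ (m * N) * Real.exp (-((m : ℝ) * N)) < 1 := by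
      have h6 : Real.exp (-((m : ℝ) * N)) = (Real.exp 1 ^ (m * N))⁻¹ := by
        rw [Real.exp_neg, ← Real.exp_nat_mul]
        push_cast
        ring_nf
      rw [h6, ← div_eq_mul_inv, div_lt_one (by positivity)]
      apply pow_lt_pow_left₀
      · have := Real.exp_one_gt_d9
        linarith
      · norm_num
      · have : 0 < m * N := by positivity
        omega
    calc _ ≤ (2 : ℝ) ^ (m * N) * Real.exp (-((m : ℝ) * N)) := by
          apply mul_le_mul_of_nonneg_left (h1.trans h2)
          positivity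
      _ < 1 := h5
  have h7 : ((2 ^ (m * N) * (m ^ N - t ^ N) ^ M : ℕ) : ℝ) =
      (2 : ℝ) ^ (m * N) * (1 - ((t : ℝ) / m) ^ N) ^ M * ((m : ℝ) ^ N) ^ M := by
    push_cast [Nat.cast_sub hle]
    rw [mul_assoc, ← mul_pow]
    congr 2
    rw [div_pow]
    field_simp
  have h8 : ((2 ^ (m * N) * (m ^ N - t ^ N) ^ M : ℕ) : ℝ) < (((m ^ N) ^ M : ℕ) : ℝ) := by
    rw [h7]
    push_cast
    have : (0 : ℝ) < ((m : ℝ) ^ N) ^ M := by positivity
    nlinarith
  exact_mod_cast h8

theorem growth {a b : ℝ} (_ha : 0 ≤ a) (hb : 0 < b) (m : ℕ)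
    (h : ∀ N : ℕ, 1 ≤ N → a ^ N ≤ b ^ N * (m * N + 1)) : a ≤ b := by
  by_contra hcon
  push Not at hcon
  have hr : 1 < a / b := by rwa [one_lt_div hb]
  have h0 := tendsto_pow_const_div_const_pow_of_one_lt 0 hr
  have h1 := tendsto_pow_const_div_const_pow_of_one_lt 1 hr
  have h2 := (h1.const_mul (m : ℝ)).add h0
  simp only [pow_one, pow_zero, mul_zero, add_zero] at h2
  have h3 := (h2.eventually (gt_mem_nhds zero_lt_one)).and (Filter.eventually_ge_atTop 1)
  obtain ⟨N, hN1, hN2⟩ := h3.exists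
  have h4 := h N hN2
  have hpos : 0 < (a / b) ^ N := by positivity
  have h5 : (m : ℝ) * (N / (a / b) ^ N) + 1 / (a / b) ^ N = (m * N + 1) / (a / b) ^ N := by
    field_simp
  rw [h5, div_lt_one hpos, div_pow, lt_div_iff₀ (by positivity)] at hN1
  linarith

/-- covering by pieces which map to `Y` -/
theorem frac {F : GInf → ℝ} (hF : IsSpectral F) {X Y : GInf} (hY : 0 < F Y) {U : Type} [Fintype U]
    (A : U → Set X.V) (φ : U → X.V → Y.V)
    (hφ : ∀ u v w, v ∈ A u → w ∈ A u → Sep X.G v w → Sep Y.G (φ u v) (φ u w))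
    (t : ℕ) (ht : 1 ≤ t) (htm : t ≤ Fintype.card U)
    (hA : ∀ v, ∃ T : Finset U, (∀ u ∈ T, v ∈ A u) ∧ t ≤ T.card) :
    F X * t ≤ Fintype.card U * F Y := by
  classical
  set m := Fintype.card U with hm
  have ht0 : (0 : ℝ) < t := by exact_mod_cast ht
  have hm0 : (0 : ℝ) < m := by exact_mod_cast (ht.trans htm)
  choose T hT hTt using hA
  have key : F X ≤ (m : ℝ) / t * F Y := by
    refine growth (hF.nonneg X) (by positivity) m fun N hN => ?_
    set M := ⌈((m : ℝ) / t) ^ N * (m * N)⌉₊ with hM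
    have hM1 : ((m : ℝ) / t) ^ N * (m * N) ≤ M := Nat.le_ceil _
    obtain ⟨g, hg⟩ := hit (Ω := Fin N → U) (W := {w : Fin N → Finset U // ∀ i, t ≤ (w i).card})
      (fun w => Fintype.piFinset w.1) (t ^ N) (2 ^ (m * N)) (by
        refine (Fintype.card_subtype_le _).trans ?_
        rw [Fintype.card_fun, Fintype.card_finset, Fintype.card_fin, ← pow_mul]) (by
        intro w
        rw [Fintype.card_piFinset]
        calc t ^ N = ∏ _i : Fin N, t := by simp
          _ ≤ _ := Finset.prod_le_prod' fun i _ => w.2 i) M (by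
        have := numeric ht htm hN hM1
        rwa [Fintype.card_fun, Fintype.card_fin])
    have hg' : ∀ p : Fin N → X.V, ∃ j, ∀ i, p i ∈ A (g j i) := by
      intro p
      obtain ⟨j, hj⟩ := hg ⟨fun i => T (p i), fun i => hTt _⟩
      rw [Fintype.mem_piFinset] at hj
      exact ⟨j, fun i => hT _ _ (hj i)⟩
    choose j hj using hg'
    have h1 : F (X.pi N) ≤ F ((E M).prod (Y.pi N)) := by
      apply hF.mono
      apply cohom_iff.2
      refine ⟨fun p => ((j p : Fin M), (fun i => φ (g (j p) i) (p i) : Fin N → Y.V)), fun p q h => ?_⟩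
      refine sep_strong.2 ?_
      by_cases hjj : j p = j q
      · right
        obtain ⟨i, hi⟩ := sep_piG.1 h
        refine sep_piG.2 ⟨i, ?_⟩
        have h2 : q i ∈ A (g (j p) i) := by rw [hjj]; exact hj q i
        have h3 := hφ _ _ _ (hj p i) h2 hi
        change Sep Y.G (φ (g (j p) i) (p i)) (φ (g (j q) i) (q i))
        rw [← hjj]
        exact h3
      · left
        exact sep_bot.2 hjj
    rw [hF.pi, hF.mul, hF.one, hF.pi] at h1
    refine h1.trans ?_
    rw [mul_pow, mul_right_comm]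
    apply mul_le_mul_of_nonneg_right _ (by positivity)
    have h4 : (M : ℝ) ≤ ((m : ℝ) / t) ^ N * (m * N) + 1 := (Nat.ceil_lt_add_one (by positivity)).le
    have h5 : (1 : ℝ) ≤ ((m : ℝ) / t) ^ N := by
      apply one_le_pow₀
      rw [one_le_div ht0]
      exact_mod_cast htm
    linarith
  have h6 : F X * t ≤ (m : ℝ) / t * F Y * t := mul_le_mul_of_nonneg_right key ht0.le
  refine h6.trans_eq ?_
  field_simp



/-! ### Long shift graphs -/

theorem shiftR (r : ℕ) : ∀ K : ℕ, ∃ N : ℕ, ∀ (κ : Type) [Fintype κ], Fintype.card κ ≤ K →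
    ∀ c : List ℕ → κ, ∃ (a : ℕ) (m : List ℕ) (b : ℕ), m.length = r ∧
      (a :: (m ++ [b])).Pairwise (· < ·) ∧ (∀ x ∈ a :: (m ++ [b]), x < N) ∧
      c (a :: m) = c (m ++ [b]) := by
  induction r with
  | zero =>
    intro K
    refine ⟨K + 1, fun κ _ hκ c => ?_⟩
    obtain ⟨a, b, hab, h⟩ := Fintype.exists_ne_map_eq_of_card_lt (fun a : Fin (K + 1) => c [a.val])
      (by rw [Fintype.card_fin]; omega)
    have key : ∀ a b : Fin (K + 1), a < b → c [a.val] = c [b.val] →
        ∃ (a : ℕ) (m : List ℕ) (b : ℕ), m.length = 0 ∧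
      (a :: (m ++ [b])).Pairwise (· < ·) ∧ (∀ x ∈ a :: (m ++ [b]), x < K + 1) ∧
      c (a :: m) = c (m ++ [b]) := by
      intro a b hab h
      refine ⟨a, [], b, rfl, ?_, ?_, ?_⟩
      · have : (a : ℕ) < b := hab
        simpa using this
      · intro x hx
        simp at hx
        rcases hx with rfl | rfl
        · exact a.2
        · exact b.2
      · simpa using h
    rcases lt_or_gt_of_ne hab with h1 | h1
    · exact key a b h1 h
    · exact key b a h1 h.symm
  | succ r ih =>
    intro K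
    obtain ⟨N, hN⟩ := ih (2 ^ K)
    refine ⟨N, fun κ _ hκ c => ?_⟩
    classical
    obtain ⟨a, m, b, hm, hp, hlt, hc⟩ := hN (Finset κ) (by
      rw [Fintype.card_finset]
      exact Nat.pow_le_pow_right (by norm_num) hκ)
      (fun l => univ.filter fun k => ∃ y, y < N ∧ (∀ x ∈ l, x < y) ∧ c (l ++ [y]) = k)
    have h1 : c ((a :: m) ++ [b]) ∈
        (univ.filter fun k => ∃ y, y < N ∧ (∀ x ∈ a :: m, x < y) ∧ c ((a :: m) ++ [y]) = k) := by
      rw [mem_filter]
      refine ⟨mem_univ _, b, hlt b (by simp), ?_, rfl⟩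
      intro x hx
      have : ((a :: m) ++ [b]).Pairwise (· < ·) := by simpa using hp
      exact (List.pairwise_append.1 this).2.2 x hx b (by simp)
    have h2 : c ((a :: m) ++ [b]) ∈
        (univ.filter fun k => ∃ y, y < N ∧ (∀ x ∈ m ++ [b], x < y) ∧ c ((m ++ [b]) ++ [y]) = k) := by
      have h3 := hc
      beta_reduce at h3
      rw [← h3]
      exact h1
    rw [mem_filter] at h2
    obtain ⟨-, y, hy, hy', hcy⟩ := h2
    refine ⟨a, m ++ [b], y, by simp [hm], ?_, ?_, ?_⟩
    · have h4 : a :: (m ++ [b] ++ [y]) = (a :: (m ++ [b])) ++ [y] := by simp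
      rw [h4, List.pairwise_append]
      refine ⟨hp, by simp, ?_⟩
      intro x hx z hz
      simp only [List.mem_singleton] at hz
      subst hz
      rcases List.mem_cons.1 hx with rfl | hx
      · have h5 : x < b := by
          have := (List.pairwise_cons.1 hp).1 b (by simp)
          exact this
        exact h5.trans (hy' b (by simp))
      · exact hy' x hx
    · intro x hx
      have h4 : a :: (m ++ [b] ++ [y]) = (a :: (m ++ [b])) ++ [y] := by simp
      rw [h4, List.mem_append] at hx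
      rcases hx with hx | hx
      · exact hlt x hx
      · simp only [List.mem_singleton] at hx
        subst hx
        exact hy
    · have h5 : a :: (m ++ [b]) = (a :: m) ++ [b] := by simp
      rw [h5]
      exact hcy.symm

/-- The entries of a list of length `k` are required to be smaller than `Nf k`. -/
noncomputable def Nf (k : ℕ) : ℕ := (shiftR (k - 1) k).choose

theorem Nf_spec {k : ℕ} (hk : 1 ≤ k) (κ : Type) [Fintype κ] (hκ : Fintype.card κ ≤ k)
    (c : List ℕ → κ) : ∃ (a : ℕ) (m : List ℕ) (b : ℕ), m.length + 1 = k ∧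
      (a :: (m ++ [b])).Pairwise (· < ·) ∧ (∀ x ∈ a :: (m ++ [b]), x < Nf k) ∧
      c (a :: m) = c (m ++ [b]) := by
  obtain ⟨a, m, b, h1, h2, h3, h4⟩ := (shiftR (k - 1) k).choose_spec κ hκ c
  exact ⟨a, m, b, by omega, h2, h3, h4⟩

/-- `l'` arises from `l` by deleting the first entry and adding a new last entry. -/
def Shift (l l' : List ℕ) : Prop := ∃ (a : ℕ) (m : List ℕ) (b : ℕ), l = a :: m ∧ l' = m ++ [b]

/-- The vertices `(l, c)` of the `i`-th graph: `l` is a strictly increasing list of length `k ≥ i²`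
with entries smaller than `Nf k`. -/
abbrev Vert (i : ℕ) : Type :=
  {p : List ℕ × Fin 3 // p.1.Pairwise (· < ·) ∧ i ^ 2 ≤ p.1.length ∧ ∀ x ∈ p.1, x < Nf p.1.length}

/-- The tensor product of the disjoint union of the long shift graphs with `K_3`. -/
def Delta (i : ℕ) : SimpleGraph (Vert i) where
  Adj p q := p.1.2 ≠ q.1.2 ∧ (Shift p.1.1 q.1.1 ∨ Shift q.1.1 p.1.1)
  symm := ⟨fun _ _ h => ⟨h.1.symm, h.2.symm⟩⟩
  loopless := ⟨fun _ h => h.1 rfl⟩

theorem sep_compl {G : SimpleGraph V} {u v : V} : Sep Gᶜ u v ↔ G.Adj u v := by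
  constructor
  · rintro ⟨h1, h2⟩
    by_contra h3
    exact h2 ((SimpleGraph.compl_adj _ _ _).2 ⟨h1, h3⟩)
  · intro h
    exact ⟨h.ne, fun h' => ((SimpleGraph.compl_adj _ _ _).1 h').2 h⟩

/-- The `i`-th graph of the sequence, the complement of `Delta i`. -/
def Gs (i : ℕ) : GInf where
  V := Vert i
  G := (Delta i)ᶜ
  card_le := by
    exact (Cardinal.mk_le_aleph0).trans Cardinal.aleph0_le_continuum
  cover := by
    refine ⟨3, cohom_iff.2 ⟨fun x => x.1.2, fun x y h => ?_⟩⟩
    exact sep_bot.2 (sep_compl.1 h).1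

theorem Gs_cover (i : ℕ) : Cohom (Gs i).G (E 3).G :=
  cohom_iff.2 ⟨fun x => x.1.2, fun _ _ h => sep_bot.2 (sep_compl.1 h).1⟩

theorem Gs_anti {i j : ℕ} (h : i ≤ j) : Cohom (Gs j).G (Gs i).G := by
  refine cohom_iff.2 ⟨fun x => (⟨x.1, x.2.1, (Nat.pow_le_pow_left h 2).trans x.2.2.1, x.2.2.2⟩ :
    Vert i), fun x y h => ?_⟩
  have h1 : (Delta j).Adj x y := sep_compl.1 h
  refine sep_compl.2 ?_
  exact h1

/-- the shift edges inside a long component -/
theorem edge {i k : ℕ} (hik : i ^ 2 ≤ k) {a : ℕ} {m : List ℕ} {b : ℕ} (hm : m.length + 1 = k)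
    (hp : (a :: (m ++ [b])).Pairwise (· < ·)) (hlt : ∀ x ∈ a :: (m ++ [b]), x < Nf k) :
    (a :: m).Pairwise (· < ·) ∧ i ^ 2 ≤ (a :: m).length ∧ (∀ x ∈ a :: m, x < Nf (a :: m).length) ∧
    (m ++ [b]).Pairwise (· < ·) ∧ i ^ 2 ≤ (m ++ [b]).length ∧
      (∀ x ∈ m ++ [b], x < Nf (m ++ [b]).length) := by
  have h1 : ((a :: m) ++ [b]).Pairwise (· < ·) := by simpa using hp
  refine ⟨(List.pairwise_append.1 h1).1, by simp; omega, ?_, (List.pairwise_cons.1 hp).2,
    by simp; omega, ?_⟩
  · intro x hx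
    have : (a :: m).length = k := by simp; omega
    rw [this]
    apply hlt
    rcases List.mem_cons.1 hx with rfl | hx
    · simp
    · simp [hx]
  · intro x hx
    have : (m ++ [b]).length = k := by simp; omega
    rw [this]
    exact hlt x (List.mem_cons_of_mem _ hx)

/-- The functional `Fb` is at least `3` on all graphs of the sequence. -/
theorem Fb_Gs (i : ℕ) : 3 ≤ Fb (Gs i) := by
  classical
  refine le_P (Gs i).isCov ?_
  rintro τ ⟨ι, hι, C, w, hC, hw, hcov, rfl⟩
  let κ : Type := ι → Finset (Fin 3)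
  let C' : ι → Set (Vert i) := C
  let k := max (i ^ 2) (Fintype.card κ + 1)
  obtain ⟨a, m, b, hm, hp, hlt, hc⟩ := Nf_spec (k := k) (by omega) κ (by omega)
    (fun l j => univ.filter fun c : Fin 3 => ∃ h, (⟨(l, c), h⟩ : Vert i) ∈ C' j)
  have he := edge (i := i) (le_max_left _ _) hm hp hlt
  have := pack (n := 3) hw hcov
    (fun c => (⟨(a :: m, c), he.1, he.2.1, he.2.2.1⟩ : Vert i)) ?_
  · exact_mod_cast this
  · intro j c c' hc1 hc2
    by_contra hne
    have h1 : c' ∈ univ.filter fun c : Fin 3 => ∃ h, (⟨(a :: m, c), h⟩ : Vert i) ∈ C' j := by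
      rw [mem_filter]
      exact ⟨mem_univ _, _, hc2⟩
    have h2 := congrFun hc j
    beta_reduce at h2
    rw [h2, mem_filter] at h1
    obtain ⟨-, h3, h4⟩ := h1
    have h5 : ((Delta i)ᶜ).Adj (⟨(a :: m, c), he.1, he.2.1, he.2.2.1⟩ : Vert i)
        (⟨(m ++ [b], c'), h3⟩ : Vert i) := by
      refine hC j hc1 h4 (fun e => hne ?_)
      exact congrArg (fun z : Vert i => z.1.2) e
    rw [SimpleGraph.compl_adj] at h5
    exact h5.2 ⟨hne, Or.inl ⟨a, m, b, rfl, rfl⟩⟩

theorem exists_sep (i : ℕ) : ∃ y0 y1 : (Gs i).V, Sep (Gs i).G y0 y1 := by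
  obtain ⟨a, m, b, hm, hp, hlt, -⟩ := Nf_spec (k := max (i ^ 2) 1) (by omega) Unit (by simp)
    (fun _ => ())
  have he := edge (i := i) (le_max_left _ _) hm hp hlt
  refine ⟨(⟨(a :: m, 0), he.1, he.2.1, he.2.2.1⟩ : Vert i),
    (⟨(m ++ [b], 1), he.2.2.2⟩ : Vert i), sep_compl.2 ⟨by simp, Or.inl ⟨a, m, b, rfl, rfl⟩⟩⟩



/-! ### Random markers -/

/-- marked entries -/
def mk {M q : ℕ} (u : Fin M → Fin q) (x : ℕ) : Bool :=
  if h : x < M then decide ((u ⟨x, h⟩ : ℕ) = 0) else false

/-- the position of the first marked entry -/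
def idx {M q : ℕ} (u : Fin M → Fin q) (l : List ℕ) : ℕ := l.findIdx (mk u)

/-- the first marked entry exists and is not the first entry of the list -/
def good {M q : ℕ} (u : Fin M → Fin q) (l : List ℕ) : Prop := 1 ≤ idx u l ∧ idx u l < l.length

theorem idx_shift {M q : ℕ} {u : Fin M → Fin q} {l l' : List ℕ} (h : Shift l l') (hg : good u l) :
    idx u l = idx u l' + 1 := by
  obtain ⟨a, m, b, rfl, rfl⟩ := h
  obtain ⟨h1, h2⟩ := hg
  unfold idx at *
  rw [List.findIdx_cons] at h1 h2 ⊢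
  cases hpa : mk u a with
  | true => simp [hpa] at h1
  | false =>
    rw [hpa] at h2
    simp only [cond_false, List.length_cons] at h2 ⊢
    rw [List.findIdx_append, if_pos (by omega)]

theorem pow_ineq {q n : ℕ} (hq : 1 ≤ q) (hn : q ^ 2 ≤ n) : (q - 1) ^ n * q ≤ q ^ n := by
  have h0 : (q - 1) ^ (q ^ 2) * q ≤ q ^ (q ^ 2) := by
    have hq0 : (0 : ℝ) < q := by exact_mod_cast hq
    have h1 : (1 - (q : ℝ) / ((q ^ 2 : ℕ) : ℝ)) ^ (q ^ 2) ≤ Real.exp (-(q : ℝ)) := by
      apply Real.one_sub_div_pow_le_exp_neg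
      have : q ≤ q ^ 2 := Nat.le_self_pow (by norm_num) q
      exact_mod_cast this
    have h2 : Real.exp (-(q : ℝ)) * q ≤ 1 := by
      rw [Real.exp_neg, inv_mul_le_iff₀ (Real.exp_pos _), mul_one]
      have := Real.add_one_le_exp (q : ℝ)
      linarith
    have h3 : (1 - (q : ℝ) / ((q ^ 2 : ℕ) : ℝ)) ^ (q ^ 2) * q ≤ 1 :=
      (mul_le_mul_of_nonneg_right h1 hq0.le).trans h2
    have h4 : (((q - 1) ^ (q ^ 2) * q : ℕ) : ℝ) =
        (1 - (q : ℝ) / ((q ^ 2 : ℕ) : ℝ)) ^ (q ^ 2) * q * (q : ℝ) ^ (q ^ 2) := by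
      push_cast [Nat.cast_sub hq]
      rw [mul_right_comm, ← mul_pow]
      congr 2
      field_simp
    have h5 : (((q - 1) ^ (q ^ 2) * q : ℕ) : ℝ) ≤ ((q ^ (q ^ 2) : ℕ) : ℝ) := by
      have h6 : ((q ^ (q ^ 2) : ℕ) : ℝ) = (q : ℝ) ^ (q ^ 2) := by rw [Nat.cast_pow]
      rw [h4, h6]
      have h7 : (0 : ℝ) < (q : ℝ) ^ (q ^ 2) := by positivity
      exact mul_le_of_le_one_left h7.le h3
    exact_mod_cast h5
  obtain ⟨d, rfl⟩ := Nat.exists_eq_add_of_le hn
  calc (q - 1) ^ (q ^ 2 + d) * q = ((q - 1) ^ (q ^ 2) * q) * (q - 1) ^ d := by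
        rw [pow_add]; ring
    _ ≤ q ^ (q ^ 2) * q ^ d := Nat.mul_le_mul h0 (Nat.pow_le_pow_left (Nat.sub_le _ _) d)
    _ = _ := by rw [pow_add]

theorem prod_ite_card {M q r : ℕ} (S : Finset (Fin M)) :
    ∏ i : Fin M, (if i ∈ S then r else q) = r ^ S.card * q ^ (M - S.card) := by
  rw [Finset.prod_ite, Finset.prod_const, Finset.prod_const]
  congr 2
  · congr 1
    ext i
    simp
  · have : (univ.filter fun i => i ∉ S) = Sᶜ := by ext i; simp
    rw [this, card_compl, Fintype.card_fin]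

theorem many_good {M q : ℕ} (hq : 3 ≤ q) {l : List ℕ} (hl : l.Pairwise (· < ·))
    (hlen : q ^ 2 ≤ l.length) (hM : ∀ x ∈ l, x < M + 1) :
    ∃ T : Finset (Fin (M + 1) → Fin q), (∀ u ∈ T, good u l) ∧ q ^ M * (q - 2) ≤ T.card := by
  classical
  have : NeZero q := ⟨by omega⟩
  refine ⟨univ.filter fun u => good u l, fun u hu => (mem_filter.1 hu).2, ?_⟩
  obtain ⟨a, m, rfl⟩ : ∃ a m, l = a :: m := by
    cases l with
    | nil =>
      exfalso
      have : 0 < q ^ 2 := by positivity
      simp at hlen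
      omega
    | cons a m => exact ⟨a, m, rfl⟩
  set n := (a :: m).length with hn
  let S : Finset (Fin (M + 1)) := univ.filter fun i => (i : ℕ) ∈ (a :: m)
  have hS : S.card = n := by
    have h1 : S.map Fin.valEmbedding = (a :: m).toFinset := by
      ext x
      simp only [S, mem_map, mem_filter, mem_univ, true_and, Fin.valEmbedding_apply,
        List.mem_toFinset]
      constructor
      · rintro ⟨i, hi, rfl⟩
        exact hi
      · intro hx
        exact ⟨⟨x, hM x hx⟩, hx, rfl⟩
    rw [← card_map Fin.valEmbedding, h1, List.toFinset_card_of_nodup]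
    exact hl.imp (fun h => ne_of_lt h)
  have hnM : n ≤ M + 1 := by
    rw [← hS]
    exact (card_le_univ _).trans_eq (Fintype.card_fin _)
  let B1 : Finset (Fin (M + 1) → Fin q) :=
    Fintype.piFinset fun i => if i ∈ ({⟨a, hM a (by simp)⟩} : Finset (Fin (M + 1))) then {0} else univ
  let B2 : Finset (Fin (M + 1) → Fin q) := Fintype.piFinset fun i => if i ∈ S then univ.erase 0
    else univ
  have hB1 : B1.card = q ^ M := by
    have h1 : B1.card = ∏ i : Fin (M + 1),
        (if i ∈ ({⟨a, hM a (by simp)⟩} : Finset (Fin (M + 1))) then 1 else q) := by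
      rw [Fintype.card_piFinset]
      refine prod_congr rfl fun i _ => ?_
      split_ifs <;> simp
    rw [h1, prod_ite_card]
    simp
  have hB2 : B2.card ≤ q ^ M := by
    have h1 : B2.card = ∏ i : Fin (M + 1), (if i ∈ S then (q - 1) else q) := by
      rw [Fintype.card_piFinset]
      refine prod_congr rfl fun i _ => ?_
      split_ifs <;> simp
    rw [h1, prod_ite_card, hS]
    have h2 := pow_ineq (q := q) (n := n) (by omega) hlen
    have h3 : (q - 1) ^ n * q ^ (M + 1 - n) * q ≤ q ^ M * q := by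
      calc (q - 1) ^ n * q ^ (M + 1 - n) * q = ((q - 1) ^ n * q) * q ^ (M + 1 - n) := by ring
        _ ≤ q ^ n * q ^ (M + 1 - n) := Nat.mul_le_mul_right _ h2
        _ = q ^ M * q := by rw [← pow_add, ← pow_succ]; congr 1; omega
    exact Nat.le_of_mul_le_mul_right h3 (by omega)
  have hcov : (univ : Finset (Fin (M + 1) → Fin q)) ⊆
      (univ.filter fun u => good u (a :: m)) ∪ (B1 ∪ B2) := by
    intro u _
    by_cases hu : good u (a :: m)
    · exact mem_union_left _ (mem_filter.2 ⟨mem_univ _, hu⟩)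
    · apply mem_union_right
      unfold good at hu
      rw [not_and_or] at hu
      rcases hu with hu | hu
      · apply mem_union_left
        have h0 : idx u (a :: m) = 0 := by omega
        unfold idx at h0
        rw [List.findIdx_cons] at h0
        cases hpa : mk u a with
        | false => simp [hpa] at h0
        | true =>
          unfold mk at hpa
          rw [dif_pos (hM a (by simp)), decide_eq_true_eq] at hpa
          rw [Fintype.mem_piFinset]
          intro i
          split_ifs with hi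
          · rw [mem_singleton] at hi
            subst hi
            rw [mem_singleton]
            exact Fin.ext (by simpa using hpa)
          · exact mem_univ _
      · apply mem_union_right
        rw [not_lt] at hu
        rw [Fintype.mem_piFinset]
        intro i
        split_ifs with hi
        · rw [mem_erase]
          refine ⟨fun h0 => ?_, mem_univ _⟩
          have hi' : (i : ℕ) ∈ (a :: m) := (mem_filter.1 hi).2
          have h1 : idx u (a :: m) < (a :: m).length := by
            unfold idx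
            apply List.findIdx_lt_length_of_exists
            refine ⟨i, hi', ?_⟩
            unfold mk
            rw [dif_pos i.2, decide_eq_true_eq]
            have : (⟨(i : ℕ), i.2⟩ : Fin (M + 1)) = i := rfl
            rw [this, h0]
            simp
          omega
        · exact mem_univ _
  have h1 := (card_le_card hcov).trans (card_union_le _ _)
  have h2 := card_union_le B1 B2
  rw [card_univ, Fintype.card_fun, Fintype.card_fin, Fintype.card_fin, pow_succ] at h1
  have h3 : q ^ M * (q - 2) + 2 * q ^ M = q ^ M * q := by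
    obtain ⟨p, rfl⟩ : ∃ p, q = p + 2 := ⟨q - 2, by omega⟩
    simp only [Nat.add_sub_cancel]
    ring
  omega

theorem step {F : GInf → ℝ} (hF : IsSpectral F) {X Y : GInf} (hY : 0 < F Y) {q : ℕ} (hq : 3 ≤ q)
    (M : ℕ) (ls : X.V → List ℕ) (B : Set X.V)
    (hls : ∀ v, v ∉ B → (ls v).Pairwise (· < ·) ∧ q ^ 2 ≤ (ls v).length ∧ ∀ x ∈ ls v, x < M + 1)
    (hS : ∀ v w, Sep X.G v w → Shift (ls v) (ls w) ∨ Shift (ls w) (ls v))
    (hB : ∀ v w, Sep X.G v w → v ∈ B → w ∈ B)
    (ψ : X.V → Y.V) (hψ : ∀ v w, v ∈ B → w ∈ B → Sep X.G v w → Sep Y.G (ψ v) (ψ w))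
    {y0 y1 : Y.V} (h01 : Sep Y.G y0 y1) : F X * ((q : ℝ) - 2) ≤ q * F Y := by
  classical
  have hqM : 0 < q ^ M := by positivity
  have h1 := frac hF hY (U := Fin (M + 1) → Fin q) (fun u => {v | v ∈ B ∨ good u (ls v)})
    (fun u v => if v ∈ B then ψ v else if idx u (ls v) % 2 = 0 then y0 else y1) ?_
    (q ^ M * (q - 2)) ?_ ?_ ?_
  · rw [Fintype.card_fun, Fintype.card_fin, Fintype.card_fin] at h1
    push_cast [Nat.cast_sub (show 2 ≤ q by omega)] at h1
    have h2 : (0 : ℝ) < (q : ℝ) ^ M := by exact_mod_cast hqM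
    have h3 : (q : ℝ) ^ M * (F X * ((q : ℝ) - 2)) ≤ (q : ℝ) ^ M * (q * F Y) := by
      rw [pow_succ] at h1
      linarith
    exact le_of_mul_le_mul_left h3 h2
  · intro u v w hv hw hsep
    by_cases hvB : v ∈ B
    · have hwB := hB v w hsep hvB
      rw [if_pos hvB, if_pos hwB]
      exact hψ v w hvB hwB hsep
    · have hwB : w ∉ B := fun h => hvB (hB w v hsep.symm h)
      rw [if_neg hvB, if_neg hwB]
      have hgv : good u (ls v) := hv.resolve_left hvB
      have hgw : good u (ls w) := hw.resolve_left hwB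
      have hpar : idx u (ls v) % 2 ≠ idx u (ls w) % 2 := by
        rcases hS v w hsep with h | h
        · have := idx_shift h hgv
          omega
        · have := idx_shift h hgw
          omega
      by_cases h0 : idx u (ls v) % 2 = 0
      · rw [if_pos h0, if_neg (by omega)]
        exact h01
      · rw [if_neg h0, if_pos (by omega)]
        exact h01.symm
  · have : 1 ≤ q - 2 := by omega
    exact Nat.one_le_iff_ne_zero.2 (by positivity)
  · rw [Fintype.card_fun, Fintype.card_fin, Fintype.card_fin, pow_succ]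
    exact Nat.mul_le_mul_left _ (Nat.sub_le _ _)
  · intro v
    by_cases hvB : v ∈ B
    · refine ⟨univ, fun u _ => Or.inl hvB, ?_⟩
      rw [card_univ, Fintype.card_fun, Fintype.card_fin, Fintype.card_fin, pow_succ]
      exact Nat.mul_le_mul_left _ (Nat.sub_le _ _)
    · obtain ⟨h2, h3, h4⟩ := hls v hvB
      obtain ⟨T, hT, hT'⟩ := many_good hq h2 h3 h4
      exact ⟨T, fun u hu => Or.inr (hT u hu), hT'⟩

theorem Gs_pos {F : GInf → ℝ} (hF : IsSpectral F) (j : ℕ) : 0 < F (Gs j) := by
  obtain ⟨y0, y1, -⟩ := exists_sep j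
  have h1 : F (E 1) ≤ F (Gs j) := by
    apply hF.mono
    refine cohom_iff.2 ⟨fun _ => y0, fun u v h => ?_⟩
    exact absurd (Subsingleton.elim (α := Fin 1) u v) h.1
  rw [hF.one] at h1
  push_cast at h1
  linarith

theorem Gs_le_three {F : GInf → ℝ} (hF : IsSpectral F) (j : ℕ) : F (Gs j) ≤ 3 := by
  have := hF.mono _ _ (Gs_cover j)
  rw [hF.one] at this
  exact_mod_cast this

theorem shift_length {l l' : List ℕ} (h : Shift l l') : l.length = l'.length := by
  obtain ⟨a, m, b, rfl, rfl⟩ := h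
  simp

/-- The graphs of the sequence are close to each other. -/
theorem Gs_step {F : GInf → ℝ} (hF : IsSpectral F) {i : ℕ} (hi : 3 ≤ i) (j : ℕ) :
    F (Gs i) * ((i : ℝ) - 2) ≤ i * F (Gs j) := by
  classical
  obtain ⟨y0, y1, h01⟩ := exists_sep j
  let y : Vert j := y0
  let ψ : Vert i → Vert j :=
    fun v => if h : j ^ 2 ≤ v.1.1.length then ⟨v.1, v.2.1, h, v.2.2.2⟩ else y
  have hψ : ∀ (v : Vert i) (h : j ^ 2 ≤ v.1.1.length), ψ v = ⟨v.1, v.2.1, h, v.2.2.2⟩ :=
    fun v h => dif_pos h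
  refine step hF (Gs_pos hF j) hi ((range (j ^ 2)).sup Nf) (fun v : Vert i => v.1.1)
    {v : Vert i | j ^ 2 ≤ v.1.1.length} ?_ ?_ ?_ ψ ?_ h01
  · intro v hv
    refine ⟨v.2.1, v.2.2.1, fun x hx => ?_⟩
    have h1 : (v.1.1.length) < j ^ 2 := not_le.1 hv
    have h2 := Finset.le_sup (f := Nf) (mem_range.2 h1)
    exact ((v.2.2.2 x hx).trans_le h2).trans (Nat.lt_succ_self _)
  · intro v w h
    exact (sep_compl.1 h).2
  · intro v w h hv
    have h1 : (Delta i).Adj v w := sep_compl.1 h
    have h2 : v.1.1.length = w.1.1.length := by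
      rcases h1.2 with h2 | h2
      · exact shift_length h2
      · exact (shift_length h2).symm
    change j ^ 2 ≤ v.1.1.length at hv
    change j ^ 2 ≤ w.1.1.length
    omega
  · intro v w hv hw h
    have hv' : j ^ 2 ≤ v.1.1.length := hv
    have hw' : j ^ 2 ≤ w.1.1.length := hw
    have h1 : (Delta i).Adj v w := sep_compl.1 h
    rw [hψ v hv', hψ w hw']
    exact sep_compl.2 h1

/-- The finite graphs below the `i`-th graph. -/
theorem low {i : ℕ} (hi : 3 ≤ i) {K : GInf} (hK : Finite K.V) (h : Cohom K.G (Gs i).G) :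
    Fb K * ((i : ℝ) - 2) ≤ i * 2 := by
  classical
  obtain ⟨f, hf⟩ := cohom_iff.1 h
  let f' : K.V → Vert i := f
  have := Fintype.ofFinite K.V
  have h2 : Fb (E 2) = 2 := by
    have := Fb_spectral.one 2
    exact_mod_cast this
  have key := step Fb_spectral (X := K) (Y := E 2) (by rw [h2]; norm_num) hi
    (univ.sup fun v => Nf (f' v).1.1.length) (fun v => (f' v).1.1) ∅ ?_ ?_ ?_ (fun _ => (0 : Fin 2))
    ?_ (y0 := (0 : Fin 2)) (y1 := (1 : Fin 2)) (sep_bot.2 (by decide))
  · rwa [h2] at key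
  · intro v _
    refine ⟨(f' v).2.1, (f' v).2.2.1, fun x hx => ?_⟩
    have h1 := Finset.le_sup (f := fun v => Nf (f' v).1.1.length) (mem_univ v)
    exact (((f' v).2.2.2 x hx).trans_le h1).trans (Nat.lt_succ_self _)
  · intro v w h
    have h1 : (Delta i).Adj (f' v) (f' w) := sep_compl.1 (hf v w h)
    exact h1.2
  · intro v w _ hv
    exact hv.elim
  · intro v w hv
    exact hv.elim

theorem Fa_Gs {i : ℕ} (hi : 3 ≤ i) : Fa (Gs i) * ((i : ℝ) - 2) ≤ i * 2 := by
  have hi' : (0 : ℝ) < (i : ℝ) - 2 := by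
    have : (3 : ℝ) ≤ i := by exact_mod_cast hi
    linarith
  rw [← le_div_iff₀ hi']
  refine csSup_le (below_nonempty _) ?_
  rintro x ⟨K, hK, hK', rfl⟩
  rw [le_div_iff₀ hi']
  exact low hi hK hK'



/-! ### Graphs with `Fa ≤ 2` -/

/-- the cycle relation -/
def Cyc {L : ℕ} (i j : Fin L) : Prop := (i : ℕ) + 1 = j ∨ ((i : ℕ) + 1 = L ∧ (j : ℕ) = 0)

/-- the complement of the cycle -/
def coCyc (L : ℕ) : SimpleGraph (Fin L) where
  Adj i j := i ≠ j ∧ ¬ Cyc i j ∧ ¬ Cyc j i
  symm := ⟨fun _ _ h => ⟨h.1.symm, h.2.2, h.2.1⟩⟩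
  loopless := ⟨fun _ h => h.1 rfl⟩

theorem P_coCyc {s : ℕ} (hs : 1 ≤ s) : (2 * s + 1 : ℝ) ≤ s * P (coCyc (2 * s + 1)) := by
  classical
  have hcov : ∃ τ, IsCov (coCyc (2 * s + 1)) τ := (GInf.ofFinite (coCyc (2 * s + 1))).isCov
  have hs0 : (0 : ℝ) < s := by exact_mod_cast hs
  rw [← div_le_iff₀' hs0]
  refine le_P hcov ?_
  rintro τ ⟨ι, hι, C, w, hC, hw, hcov, rfl⟩
  rw [div_le_iff₀' hs0]
  have h1 : (2 * s + 1 : ℝ) ≤ ∑ i : Fin (2 * s + 1), ∑ j, if i ∈ C j then w j else 0 := by
    calc (2 * s + 1 : ℝ) = ∑ i : Fin (2 * s + 1), (1 : ℝ) := by simp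
      _ ≤ _ := Finset.sum_le_sum fun i _ => hcov i
  rw [Finset.sum_comm] at h1
  rw [Finset.mul_sum]
  refine h1.trans (Finset.sum_le_sum fun j _ => ?_)
  rw [← Finset.sum_filter, Finset.sum_const, nsmul_eq_mul]
  apply mul_le_mul_of_nonneg_right _ (hw j)
  -- the clique has at most `s` elements
  let T : Finset (Fin (2 * s + 1)) := univ.filter fun i => i ∈ C j
  have hcyc : ∀ a b : Fin (2 * s + 1), a ∈ C j → b ∈ C j → Cyc a b → False := by
    intro a b ha hb hab
    have hne : a ≠ b := by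
      rintro rfl
      rcases hab with h | h
      · omega
      · omega
    exact (hC j ha hb hne).2.1 hab
  let σ : Fin (2 * s + 1) → Fin (2 * s + 1) := fun i => ⟨((i : ℕ) + 1) % (2 * s + 1),
    Nat.mod_lt _ (by omega)⟩
  have hσ : ∀ i, Cyc i (σ i) := by
    intro i
    by_cases h : (i : ℕ) + 1 = 2 * s + 1
    · right
      refine ⟨h, ?_⟩
      change ((i : ℕ) + 1) % (2 * s + 1) = 0
      rw [h, Nat.mod_self]
    · left
      change (i : ℕ) + 1 = ((i : ℕ) + 1) % (2 * s + 1)
      rw [Nat.mod_eq_of_lt]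
      have := i.2
      omega
  have hinj : Function.Injective σ := by
    intro a b hab
    have h1 := hσ a
    have h2 := hσ b
    rw [hab] at h1
    apply Fin.ext
    rcases h1 with h1 | h1 <;> rcases h2 with h2 | h2 <;> omega
  have h2 : (T.image σ) ⊆ Tᶜ := by
    intro b hb
    rw [mem_image] at hb
    obtain ⟨a, ha, rfl⟩ := hb
    rw [mem_compl]
    intro hb
    exact hcyc a (σ a) (mem_filter.1 ha).2 (mem_filter.1 hb).2 (hσ a)
  have h3 := card_le_card h2
  rw [card_image_of_injective _ hinj, card_compl, Fintype.card_fin] at h3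
  have h4 : T.card ≤ s := by omega
  exact_mod_cast h4

theorem colorable {H : GInf} (h : Fa H ≤ 2) : Cohom H.G (E 2).G := by
  classical
  have hcol : (H.Gᶜ).Colorable 2 := by
    rw [SimpleGraph.two_colorable_iff_forall_loop_even]
    intro u w
    by_contra hodd
    rw [Nat.not_even_iff_odd] at hodd
    obtain ⟨s, hs⟩ := hodd
    have hs1 : 1 ≤ s := by
      by_contra h0
      have h1 : w.length = 1 := by omega
      have h2 := SimpleGraph.Walk.adj_of_length_eq_one h1
      exact h2.ne rfl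
    have hadj : ∀ i : ℕ, i < w.length → H.Gᶜ.Adj (w.getVert i) (w.getVert (i + 1)) :=
      fun i hi => w.adj_getVert_succ hi
    have hcoh : Cohom (coCyc (2 * s + 1)) H.G := by
      refine cohom_iff.2 ⟨fun i => w.getVert i, ?_⟩
      have key : ∀ i j : Fin (2 * s + 1), Cyc i j → Sep H.G (w.getVert i) (w.getVert j) := by
        intro i j hij
        have h1 := hadj i (by rw [hs]; exact i.2)
        have h2 : w.getVert ((i : ℕ) + 1) = w.getVert j := by
          rcases hij with h | h
          · rw [h]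
          · rw [h.1, h.2, ← hs, w.getVert_length, w.getVert_zero]
        rw [h2, SimpleGraph.compl_adj] at h1
        exact h1
      rintro i j ⟨h1, h2⟩
      by_cases h3 : Cyc i j
      · exact key i j h3
      · by_cases h4 : Cyc j i
        · exact (key j i h4).symm
        · exact absurd ⟨h1, h3, h4⟩ h2
    have h1 := P_coCyc hs1
    have h2 : P (coCyc (2 * s + 1)) ≤ Fa H :=
      le_Fa (H := GInf.ofFinite (coCyc (2 * s + 1)))
        (by change Finite (Fin (2 * s + 1)); infer_instance) hcoh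
    have hs0 : (0 : ℝ) < s := by exact_mod_cast hs1
    nlinarith
  obtain ⟨c⟩ := hcol
  refine cohom_iff.2 ⟨fun v => c v, fun v w hvw => ?_⟩
  refine sep_bot.2 ?_
  apply c.valid
  rw [SimpleGraph.compl_adj]
  exact hvw

theorem abs_le_of_dist {G H : GInf} {ε : ℝ} (hε : 0 ≤ ε) (h : dist G H ≤ ENNReal.ofReal ε)
    {F : GInf → ℝ} (hF : IsSpectral F) : |F G - F H| ≤ ε := by
  have h1 : ENNReal.ofReal |F G - F H| ≤ dist G H :=
    le_iSup₂ (f := fun (F : GInf → ℝ) (_ : IsSpectral F) => ENNReal.ofReal |F G - F H|) F hF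
  exact (ENNReal.ofReal_le_ofReal_iff hε).1 (h1.trans h)

theorem diff_le {F : GInf → ℝ} (hF : IsSpectral F) {i j : ℕ} (hi : 3 ≤ i) (hij : i ≤ j) :
    |F (Gs i) - F (Gs j)| ≤ 6 / ((i : ℝ) - 2) := by
  have hi' : (0 : ℝ) < (i : ℝ) - 2 := by
    have : (3 : ℝ) ≤ i := by exact_mod_cast hi
    linarith
  have h1 := Gs_step hF hi j
  have h2 := hF.mono _ _ (Gs_anti hij)
  have h3 := Gs_le_three hF j
  rw [abs_of_nonneg (by linarith), le_div_iff₀ hi']
  nlinarith

theorem Gs_dist {i j : ℕ} (hi : 3 ≤ i) (hij : i ≤ j) :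
    dist (Gs i) (Gs j) ≤ ENNReal.ofReal (6 / ((i : ℝ) - 2)) :=
  iSup₂_le fun _ hF => ENNReal.ofReal_le_ofReal (diff_le hF hi hij)

theorem dist_comm (G H : GInf) : dist G H = dist H G := by
  unfold dist
  simp_rw [abs_sub_comm]

/-- There is a Cauchy sequence for the asymptotic spectrum distance without a limit. -/
theorem result : ∃ G : ℕ → GInf,
    (∀ ε : ℝ, 0 < ε → ∃ n₀ : ℕ, ∀ m n : ℕ, n₀ ≤ m → n₀ ≤ n → dist (G m) (G n) ≤ ENNReal.ofReal ε) ∧
    ¬ ∃ H : GInf, Filter.Tendsto (fun n => dist (G n) H) Filter.atTop (nhds 0) := by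
  refine ⟨Gs, fun ε hε => ?_, ?_⟩
  · obtain ⟨k, hk⟩ := exists_nat_gt (6 / ε)
    have key : ∀ m n : ℕ, k + 3 ≤ m → m ≤ n → dist (Gs m) (Gs n) ≤ ENNReal.ofReal ε := by
      intro m n hm hmn
      refine (Gs_dist (by omega) hmn).trans (ENNReal.ofReal_le_ofReal ?_)
      have h1 : (k : ℝ) + 3 ≤ m := by exact_mod_cast hm
      rw [div_lt_iff₀ hε] at hk
      rw [div_le_iff₀ (by have : (0 : ℝ) ≤ k := Nat.cast_nonneg k
                          linarith)]
      nlinarith
    refine ⟨k + 3, fun m n hm hn => ?_⟩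
    rcases le_total m n with h | h
    · exact key m n hm h
    · rw [dist_comm]
      exact key n m hn h
  · rintro ⟨H, hH⟩
    have hev : ∀ ε : ℝ, 0 < ε → ∃ n : ℕ, 3 ≤ n ∧ 1 / ε ≤ n ∧
        ∀ F : GInf → ℝ, IsSpectral F → |F (Gs n) - F H| ≤ ε := by
      intro ε hε
      have h1 : ∀ᶠ n in Filter.atTop, dist (Gs n) H < ENNReal.ofReal ε :=
        hH.eventually (gt_mem_nhds (ENNReal.ofReal_pos.2 hε))
      obtain ⟨k, hk⟩ := exists_nat_gt (1 / ε)
      obtain ⟨n, hn, hn'⟩ := (h1.and (Filter.eventually_ge_atTop (k + 3))).exists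
      refine ⟨n, by omega, ?_, fun F hF => abs_le_of_dist hε.le hn.le hF⟩
      have : (k : ℝ) ≤ n := by exact_mod_cast (show k ≤ n by omega)
      linarith
    have hb : 3 ≤ Fb H := by
      apply le_of_forall_pos_le_add
      intro ε hε
      obtain ⟨n, -, -, hn⟩ := hev ε hε
      have h1 := hn Fb Fb_spectral
      have h2 := Fb_Gs n
      rw [abs_le] at h1
      linarith
    have ha : Fa H ≤ 2 := by
      apply le_of_forall_pos_le_add
      intro ε hε
      obtain ⟨n, hn3, hn1, hn⟩ := hev (ε / 16) (by positivity)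
      have h1 := hn Fa Fa_spectral
      have h2 := Fa_Gs hn3
      have h3 : (3 : ℝ) ≤ n := by exact_mod_cast hn3
      rw [abs_le] at h1
      rw [div_le_iff₀ (by positivity)] at hn1
      -- `Fa (Gs n) ≤ 2 + 4 / (n - 2)`
      have h4 : (Fa (Gs n) - 2) * ((n : ℝ) - 2) ≤ 4 := by linarith
      have h5 : Fa (Gs n) - 2 ≤ 12 * (ε / 16) := by
        by_contra hcon
        push Not at hcon
        have h6 : 12 * (ε / 16) * ((n : ℝ) - 2) < (Fa (Gs n) - 2) * ((n : ℝ) - 2) :=
          mul_lt_mul_of_pos_right hcon (by linarith)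
        nlinarith
      linarith
    have h1 : Fb H ≤ 2 := by
      have h2 := Fb_spectral.mono _ _ (colorable ha)
      rw [Fb_spectral.one] at h2
      exact_mod_cast h2
    linarith

end Pool.Agent.Results.MP_d03f2b_co.NotComplete
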